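import Pool.Agent.H185F.Admissible
import Pool.Agent.Y335.FL.Stm2
import Pool.Agent.R926.SC.Codim

set_option autoImplicit false
set_option linter.unusedSectionVars false

/-! # Nowhere-zero 5-flows: at most 125 vertices of odd degree -/

namespace Pool.Agent.N463.OV

open Finset Pool.Agent.TH676.Z Pool.Agent.H185F Pool.Agent.H239R2.Cover Pool.Agent.Y335.FL
open Pool.Agent.R926.SC

variable {V E : Type} [Fintype V] [DecidableEq V] [Fintype E] [DecidableEq E]

theorem flow_split (src dst : E → V) (e f : E) (hef : e ≠ f) (y : V)
    (he : dst e = y) (hf : src f = y) (h : FlowOn src (sdst dst e f y) ∅ ∅) :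
    FlowOn src dst ∅ ∅ := by
  obtain ⟨s', h1, -, h3⟩ := h
  refine ⟨fun g => if g = f then s' e else s' g, fun v => ?_, by simp, fun g _ _ => ?_⟩
  · have h2 := h1 v
    rw [← h2, ← sub_eq_zero]
    unfold bd
    beta_reduce
    rw [← Finset.sum_sub_distrib, ← Finset.sum_subset (Finset.subset_univ {e, f}),
      Finset.sum_pair hef]
    · rw [if_neg hef, if_pos rfl, t5_f, t5_e dst e f hef, he, hf]
      ring
    · intro g _ hg
      rw [Finset.mem_insert, Finset.mem_singleton, not_or] at hg
      rw [if_neg hg.2, t5_g dst e f y g hg.1 hg.2, sub_self]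
  · show (if g = f then s' e else s' g) ≠ 0
    split_ifs
    · exact h3 e (notMem_empty _) (notMem_empty _)
    · exact h3 g (notMem_empty _) (notMem_empty _)

theorem flow_flip (F : Finset E) (src dst : E → V)
    (h : FlowOn (rsrc F src dst) (rsrc F dst src) ∅ ∅) : FlowOn src dst ∅ ∅ := by
  obtain ⟨s, h1, -, h3⟩ := h
  refine ⟨fun e => if e ∈ F then - s e else s e, fun v => ?_, by simp, fun g _ _ => ?_⟩
  · rw [← h1 v]
    unfold bd rsrc
    refine sum_congr rfl fun e _ => ?_
    by_cases hF : e ∈ F
    · simp only [hF, if_true]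
      split_ifs <;> ring
    · simp only [hF, if_false]
  · show (if g ∈ F then - s g else s g) ≠ 0
    split_ifs
    · exact neg_ne_zero.mpr (h3 g (notMem_empty _) (notMem_empty _))
    · exact h3 g (notMem_empty _) (notMem_empty _)

/-- splitting off does not change the parity of the degrees -/
theorem par_split (src dst : E → V) (e f : E) (hef : e ≠ f) (y : V)
    (he : dst e = y) (hf : src f = y) (v : V) :
    Odd (ecut src (sdst dst e f y) {v}).card ↔ Odd (ecut src dst {v}).card := by
  have key : ∀ X : Finset V, y ∉ X →
      (Odd (ecut src (sdst dst e f y) X).card ↔ Odd (ecut src dst X).card) := by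
    intro X hX
    rcases ecut_split_le src dst e f hef y he hf X hX with ⟨-, h⟩ | ⟨-, h⟩
    · rw [← h, Nat.odd_add]
      simp
    · rw [h]
  by_cases hv : v = y
  · subst hv
    have h := key {v}ᶜ (by simp)
    rwa [ecut_compl, ecut_compl] at h
  · exact key {v} (by rw [mem_singleton]; exact fun h => hv h.symm)

/-- the number of the vertices of odd degree -/
def oc (src dst : E → V) : ℕ := (univ.filter (fun v => Odd (ecut src dst {v}).card)).card

theorem dg_eq_ecut (src dst : E → V) (x : V) : dg src dst x = (ecut src dst {x}).card := by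
  unfold dg ecut
  congr 1
  ext e
  simp only [mem_filter, mem_univ, true_and, mem_singleton]
  constructor
  · rintro ⟨a1, a2⟩ a3
    rcases a2 with a2 | a2
    · exact a1 (a2.trans (a3.1 a2).symm)
    · exact a1 ((a3.2 a2).trans a2.symm)
  · intro a
    refine ⟨fun h => a (by rw [h]), ?_⟩
    by_contra h
    rw [not_or] at h
    exact a ⟨fun h5 => absurd h5 h.1, fun h5 => absurd h5 h.2⟩

theorem odd_main (ho : St_order) : ∀ (m : ℕ) (src dst : E → V), nl src dst ≤ m →
    OddConn 3 src dst → oc src dst ≤ 125 → FlowOn src dst ∅ ∅ := by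
  intro m
  induction m using Nat.strong_induction_on with
  | _ m ih =>
  intro src dst hm hcon hoc
  by_cases hev : ∃ y, Even (ecut src dst {y}).card ∧ (ecut src dst {y}).Nonempty
  · obtain ⟨y, hy, e, he⟩ := hev
    rw [mem_ecut] at he
    simp only [Finset.mem_singleton] at he
    obtain ⟨F0, h1, h2⟩ : ∃ F0 : Finset E, rsrc F0 dst src e = y ∧ rsrc F0 src dst e ≠ y := by
      by_cases hd : dst e = y
      · refine ⟨∅, by simpa [rsrc] using hd, ?_⟩
        have : src e ≠ y := fun h => he ⟨fun _ => hd, fun _ => h⟩
        simpa [rsrc] using this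
      · have hs : src e = y := by
          by_contra hs
          exact he ⟨fun h => absurd h hs, fun h => absurd h hd⟩
        exact ⟨{e}, by simpa [rsrc] using hs, by simpa [rsrc] using hd⟩
    have hcon1 : OddConn 3 (rsrc F0 src dst) (rsrc F0 dst src) := by
      intro X hX
      rw [ecut_flip] at hX ⊢
      exact hcon X hX
    have hy1 : Even (ecut (rsrc F0 src dst) (rsrc F0 dst src) {y}).card := by
      rw [ecut_flip]; exact hy
    obtain ⟨f, F, hfe, heF, hf1, hf2, he1, hcon2⟩ :=
      exists_admissible 3 (by decide) _ _ hcon1 y hy1 e h1 h2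
    have hnl1 : nl (rsrc F (rsrc F0 src dst) (rsrc F0 dst src))
        (rsrc F (rsrc F0 dst src) (rsrc F0 src dst)) = nl src dst := by
      rw [nl_flip, nl_flip]
    have hse : rsrc F (rsrc F0 src dst) (rsrc F0 dst src) e ≠ y := by
      simp only [rsrc, if_neg heF] at h2 ⊢
      exact h2
    have hlt := nl_split _ _ e f hfe.symm y he1 hf1 hse hf2
    rw [hnl1] at hlt
    have hoc2 : oc (rsrc F (rsrc F0 src dst) (rsrc F0 dst src))
        (sdst (rsrc F (rsrc F0 dst src) (rsrc F0 src dst)) e f y) ≤ 125 := by
      refine le_trans (le_of_eq ?_) hoc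
      unfold oc
      congr 1
      refine filter_congr fun v _ => ?_
      rw [par_split _ _ e f hfe.symm y he1 hf1, ecut_flip, ecut_flip]
    have hgood := ih _ (lt_of_lt_of_le hlt hm) _ _ le_rfl hcon2 hoc2
    have hg2 := flow_split _ _ e f hfe.symm y he1 hf1 hgood
    exact flow_flip F0 _ _ (flow_flip F _ _ hg2)
  · push Not at hev
    refine ho V E src dst ?_ ?_
    · refine le_trans (card_le_card ?_) hoc
      intro x hx
      rw [mem_filter] at hx ⊢
      refine ⟨mem_univ _, ?_⟩
      rw [dg_eq_ecut] at hx
      by_contra h
      rw [Nat.not_odd_iff_even] at h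
      have h1 := hev x h
      rw [h1] at hx
      simp at hx
    · intro Y _ h
      rw [sdiff_empty] at h
      have h1 := hcon Y (by
        show Odd (crs src dst Y).card
        rw [h]; decide)
      have h2 : (ecut src dst Y).card = 1 := h
      omega

/-- **Pieces.**  At most 125 components of `F` have an odd number of boundary edges. -/
theorem odd_pieces (ho : St_order) (src dst : E → V) (F : Finset E)
    (h125 : ((univ.image (comp src dst F)).filter
      (fun X => Odd (crs src dst X).card)).card ≤ 125)
    (hb : Br src dst ∅ ∅) : FlowOn src dst ∅ F := by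
  classical
  obtain ⟨r, q1, q2, q3, -⟩ := quotC src dst F
  have hr : ∀ x y, r x = r y ↔ y ∈ comp src dst F x := by
    intro x y
    constructor
    · intro h
      have hd : Disjoint (crs src dst (comp src dst F x)) F := by
        rw [disjoint_left]
        intro e he heF
        rw [R926.SC.mem_crs] at he
        apply he
        rw [mem_comp, mem_comp]
        have h5 : Relation.EqvGen (fun a b => ∃ e ∈ F, src e = a ∧ dst e = b) (src e) (dst e) :=
          Relation.EqvGen.rel _ _ ⟨e, heF, rfl, rfl⟩
        exact ⟨fun h => h.trans _ _ _ h5, fun h => h.trans _ _ _ (h5.symm _ _)⟩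
      exact (q3 _ hd x y h).1 ((mem_comp src dst F x x).mpr (Relation.EqvGen.refl _))
    · intro h
      rw [mem_comp] at h
      induction h with
      | rel a b hab =>
        obtain ⟨e, he, rfl, rfl⟩ := hab
        exact q1 e he
      | refl a => rfl
      | symm a b _ ih => exact ih.symm
      | trans a b c _ _ i1 i2 => exact i1.trans i2
  have hec : ∀ X : Finset V, ecut (r ∘ src) (r ∘ dst) X =
      crs src dst (univ.filter (fun x => r x ∈ X)) := by
    intro X
    unfold ecut crs
    refine filter_congr fun e _ => ?_
    simp [Function.comp]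
  have hfl : FlowOn (r ∘ src) (r ∘ dst) ∅ ∅ := by
    refine odd_main ho _ (r ∘ src) (r ∘ dst) le_rfl ?_ ?_
    · intro X hX
      rw [hec] at hX ⊢
      have h1 := hb (univ.filter (fun x => r x ∈ X)) (disjoint_empty_right _)
      rw [sdiff_empty] at h1
      obtain ⟨k, hk⟩ := hX
      omega
    · refine le_trans ?_ h125
      unfold oc
      have hec1 : ∀ w : V, ecut (r ∘ src) (r ∘ dst) {w} =
          crs src dst (univ.filter (fun x => r x = w)) := by
        intro w
        rw [hec]
        congr 1
        ext x
        simp
      have hne : ∀ w, Odd (crs src dst (univ.filter (fun x => r x = w))).card →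
          ∃ x, r x = w := by
        intro w hw
        by_contra hcon
        push Not at hcon
        have h5 : univ.filter (fun x => r x = w) = ∅ := by
          rw [filter_eq_empty_iff]
          exact fun x _ => hcon x
        rw [h5] at hw
        simp [crs] at hw
      refine card_le_card_of_injOn (fun w => univ.filter (fun x => r x = w)) ?_ ?_
      · intro w hw
        rw [mem_coe, mem_filter, hec1] at hw
        obtain ⟨x, hxw⟩ := hne w hw.2
        rw [mem_coe, mem_filter, mem_image]
        refine ⟨⟨x, mem_univ _, ?_⟩, hw.2⟩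
        ext y
        rw [← hr, mem_filter, ← hxw]
        simp only [mem_univ, true_and]
        exact eq_comm
      · intro w hw w' hw' h
        rw [mem_coe, mem_filter, hec1] at hw
        obtain ⟨x, hxw⟩ := hne w hw.2
        beta_reduce at h
        have hx2 : x ∈ univ.filter (fun x => r x = w) := mem_filter.mpr ⟨mem_univ _, hxw⟩
        rw [h] at hx2
        exact hxw.symm.trans (mem_filter.mp hx2).2
  have h7 := q2 ∅ hfl
  simpa using h7

end Pool.Agent.N463.OV
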